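import Pool.Agent.H37.CSZ.Stmts

/-!
# Board `csz`, row ISO: large totally isotropic subgroups
-/

set_option autoImplicit false

namespace Pool.CND

open Finset

private theorem iso_one {Q : Type} [Group Q] {ω : Q → Q → ZMod 2}
    (h1 : ∀ a b c : Q, ω (a * b) c = ω a c + ω b c) (c : Q) : ω 1 c = 0 := by
  have := h1 1 1 c
  rw [one_mul] at this
  exact left_eq_add.1 this

private theorem iso_inv {Q : Type} [Group Q] {ω : Q → Q → ZMod 2}
    (h1 : ∀ a b c : Q, ω (a * b) c = ω a c + ω b c) {a c : Q} (h : ω a c = 0) :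
    ω a⁻¹ c = 0 := by
  have := h1 a a⁻¹ c
  rw [mul_inv_cancel, iso_one h1, h, zero_add] at this
  exact this.symm

/-- the annihilator of a set -/
private def isoAnn {Q : Type} [Group Q] (ω : Q → Q → ZMod 2)
    (h1 : ∀ a b c : Q, ω (a * b) c = ω a c + ω b c)
    (h2 : ∀ a b c : Q, ω a (b * c) = ω a b + ω a c) (K : Subgroup Q) : Subgroup Q where
  carrier := {x | ∀ g ∈ K, ω x g = 0 ∧ ω g x = 0}
  mul_mem' := by
    intro a b ha hb g hg
    rw [h1, h2, (ha g hg).1, (ha g hg).2, (hb g hg).1, (hb g hg).2]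
    exact ⟨add_zero 0, add_zero 0⟩
  one_mem' := fun g _ => ⟨iso_one h1 g,
    iso_one (ω := fun a b => ω b a) (fun a b c => h2 c a b) g⟩
  inv_mem' := by
    intro a ha g hg
    exact ⟨iso_inv h1 (ha g hg).1,
      iso_inv (ω := fun a b => ω b a) (fun a b c => h2 c a b) (ha g hg).2⟩

/-- the kernel of `ω a` in `K` -/
private def isoKer {Q : Type} [Group Q] (ω : Q → Q → ZMod 2)
    (h2 : ∀ a b c : Q, ω a (b * c) = ω a b + ω a c) (K : Subgroup Q) (a : Q) : Subgroup Q where
  carrier := {x | x ∈ K ∧ ω a x = 0}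
  mul_mem' := by
    intro x y hx hy
    refine ⟨K.mul_mem hx.1 hy.1, ?_⟩
    rw [h2, hx.2, hy.2, add_zero]
  one_mem' := ⟨K.one_mem, iso_one (ω := fun a b => ω b a) (fun a b c => h2 c a b) a⟩
  inv_mem' := fun hx => ⟨K.inv_mem hx.1,
    iso_inv (ω := fun a b => ω b a) (fun a b c => h2 c a b) hx.2⟩

private theorem iso_index {Q : Type} [Group Q] (ω : Q → Q → ZMod 2)
    (h2 : ∀ a b c : Q, ω a (b * c) = ω a b + ω a c) (K : Subgroup Q) (a : Q) :
    (isoKer ω h2 K a).relIndex K ≤ 2 := by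
  let φ : K →* Multiplicative (ZMod 2) :=
    { toFun := fun x => Multiplicative.ofAdd (ω a x)
      map_one' := by
        have := iso_one (ω := fun a b => ω b a) (fun a b c => h2 c a b) a
        change Multiplicative.ofAdd (ω a 1) = 1
        rw [show ω a 1 = 0 from this]
        rfl
      map_mul' := fun x y => by
        change Multiplicative.ofAdd (ω a (x * y)) = _
        rw [h2]
        rfl }
  have h : (isoKer ω h2 K a).subgroupOf K = φ.ker := by
    ext x
    rw [Subgroup.mem_subgroupOf, MonoidHom.mem_ker]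
    constructor
    · rintro ⟨-, hx⟩
      exact congrArg Multiplicative.ofAdd hx
    · intro hx
      exact ⟨x.2, congrArg Multiplicative.toAdd hx⟩
  rw [Subgroup.relIndex, h, Subgroup.index_ker]
  calc Nat.card φ.range ≤ Nat.card (Multiplicative (ZMod 2)) := Finite.card_subtype_le _
    _ = 2 := by
      rw [Nat.card_eq_fintype_card, Fintype.card_multiplicative, ZMod.card]

private theorem iso_ne {Q : Type} [Group Q] [Finite Q] (A B : Subgroup Q) :
    A.relIndex B ≠ 0 := by
  rw [Subgroup.relIndex]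
  exact Subgroup.index_ne_zero_of_finite

private theorem iso_main {Q : Type} [Group Q] [Finite Q] (ω : Q → Q → ZMod 2)
    (h1 : ∀ a b c : Q, ω (a * b) c = ω a c + ω b c)
    (h2 : ∀ a b c : Q, ω a (b * c) = ω a b + ω a c) (h3 : ∀ a : Q, ω a a = 0) (n : ℕ) :
    ∀ K R : Subgroup Q, R ≤ K → (∀ r ∈ R, ∀ g ∈ K, ω r g = 0 ∧ ω g r = 0) →
    R.relIndex K = n →
    ∃ U : Subgroup Q, R ≤ U ∧ U ≤ K ∧ (∀ a ∈ U, ∀ b ∈ U, ω a b = 0) ∧
      U.relIndex K ^ 2 ≤ R.relIndex K := by
  induction n using Nat.strong_induction_on with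
  | _ n ih =>
    intro K R hRK hR hn
    have hsym : ∀ a b : Q, ω a b = 0 → ω b a = 0 := by
      intro a b hab
      have h := h3 (a * b)
      rw [h1, h2, h2, h3, h3, hab, add_zero, zero_add, add_zero] at h
      exact h
    by_cases hz : ∀ a ∈ K, ∀ b ∈ K, ω a b = 0
    · refine ⟨K, hRK, le_rfl, hz, ?_⟩
      rw [Subgroup.relIndex_self, one_pow]
      exact Nat.one_le_iff_ne_zero.2 (iso_ne R K)
    · push Not at hz
      obtain ⟨a, ha, b, hb, hab⟩ := hz
      set K' := isoKer ω h2 K a with hK'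
      set R' := R ⊔ Subgroup.zpowers a with hR'
      have hK'K : K' ≤ K := fun x hx => hx.1
      have haK' : a ∈ K' := ⟨ha, h3 a⟩
      have hRK' : R ≤ K' := fun r hr => ⟨hRK hr, (hR r hr a ha).2⟩
      have hR'K' : R' ≤ K' := sup_le hRK' (Subgroup.zpowers_le.2 haK')
      have hRR' : R ≤ R' := le_sup_left
      have hann : R' ≤ isoAnn ω h1 h2 K' := by
        refine sup_le (fun r hr g hg => hR r hr g (hK'K hg)) (Subgroup.zpowers_le.2 ?_)
        exact fun g hg => ⟨hg.2, hsym _ _ hg.2⟩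
      have hi1 : K'.relIndex K ≤ 2 := iso_index ω h2 K a
      have hi2 : 2 ≤ R.relIndex R' := by
        have h4 : R.relIndex R' ≠ 0 := iso_ne R R'
        have h5 : R.relIndex R' ≠ 1 := by
          intro h
          rw [Subgroup.relIndex_eq_one] at h
          exact hab (hR a (h (hR' ▸ (le_sup_right : Subgroup.zpowers a ≤ _)
            (Subgroup.mem_zpowers a))) b hb).1
        omega
      have hm1 := Subgroup.relIndex_mul_relIndex R R' K' hRR' hR'K'
      have hm2 := Subgroup.relIndex_mul_relIndex R K' K hRK' hK'K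
      have h6 : R'.relIndex K' ≠ 0 := iso_ne R' K'
      have h7 : K'.relIndex K ≠ 0 := iso_ne K' K
      have h8 : 2 * R'.relIndex K' ≤ R.relIndex K' := by
        rw [← hm1]
        exact Nat.mul_le_mul_right _ hi2
      have h9 : R.relIndex K' ≤ R.relIndex K := by
        rw [← hm2]
        exact Nat.le_mul_of_pos_right _ (Nat.pos_of_ne_zero h7)
      obtain ⟨U, hU1, hU2, hU3, hU4⟩ := ih (R'.relIndex K') (by omega) K' R' hR'K'
        (fun r hr g hg => hann hr g hg) rfl
      refine ⟨U, hRR'.trans hU1, hU2.trans hK'K, hU3, ?_⟩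
      have hm3 := Subgroup.relIndex_mul_relIndex U K' K hU2 hK'K
      rw [← hm3, ← hm2, ← hm1, mul_pow]
      calc U.relIndex K' ^ 2 * K'.relIndex K ^ 2
          ≤ R'.relIndex K' * K'.relIndex K ^ 2 := Nat.mul_le_mul_right _ hU4
        _ = K'.relIndex K * (R'.relIndex K' * K'.relIndex K) := by ring
        _ ≤ 2 * (R'.relIndex K' * K'.relIndex K) := Nat.mul_le_mul_right _ hi1
        _ ≤ R.relIndex R' * (R'.relIndex K' * K'.relIndex K) := Nat.mul_le_mul_right _ hi2
        _ = R.relIndex R' * R'.relIndex K' * K'.relIndex K := by ring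

theorem iso_thm : S_ISO := by
  intro Q _ _ ω R h1 h2 h3 hR
  obtain ⟨U, hU1, -, hU3, hU4⟩ := iso_main ω h1 h2 h3 _ ⊤ R le_top
    (fun r hr g _ => hR r hr g) rfl
  refine ⟨U, hU1, hU3, ?_⟩
  rwa [Subgroup.relIndex_top_right, Subgroup.relIndex_top_right] at hU4

end Pool.CND
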