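import Pool.Agent.H37.CSZ.Stmts

/-!
# Board `csz`, row ZZC: the order of the Suzuki group is at most `q ^ 2 (q - 1) (q ^ 2 + 1)`
-/

set_option autoImplicit false

namespace Pool.CND

open Finset Matrix

section

variable {F : Type} [Field F] [CharP F 2] {φ : F →+* F}

/-- the relations for the first column -/
private theorem zzc_rel (g : Sz φ) : ∃ s : F,
    s * s = φ (g.1.1 0 0) * φ (g.1.1 3 0) + φ (g.1.1 1 0) * φ (g.1.1 2 0) ∧
    g.1.1 0 0 * s = g.1.1 1 0 * φ (g.1.1 1 0) + g.1.1 2 0 * φ (g.1.1 0 0) ∧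
    g.1.1 3 0 * s = g.1.1 1 0 * φ (g.1.1 3 0) + g.1.1 2 0 * φ (g.1.1 2 0) := by
  obtain ⟨hJ, hm⟩ := g.2
  have h2 : (2 : F) = 0 := CharTwo.two_eq_zero
  have c := cols_iso hJ 0
  have m0 := congrFun (congrFun hm 0) 0
  have m1 := congrFun (congrFun hm 1) 0
  have m2 := congrFun (congrFun hm 2) 0
  have m3 := congrFun (congrFun hm 3) 0
  simp only [mnr, Matrix.map_apply] at m0 m1 m2 m3
  have e1 : pr1 0 = 0 := rfl
  have e2 : pr1 1 = 0 := rfl
  have e3 : pr1 2 = 1 := rfl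
  have e4 : pr1 3 = 2 := rfl
  have f1 : pr2 0 = 1 := rfl
  have f2 : pr2 1 = 2 := rfl
  have f3 : pr2 2 = 3 := rfl
  have f4 : pr2 3 = 3 := rfl
  rw [e1, f1] at c m0
  rw [e1, f1, e2, f2] at m1
  rw [e1, f1, e3, f3] at m2
  rw [e1, f1, e4, f4] at m3
  rw [← m0, ← m1, ← m2, ← m3]
  generalize g.1.1 0 0 = a0 at *
  generalize g.1.1 1 0 = a1 at *
  generalize g.1.1 2 0 = a2 at *
  generalize g.1.1 3 0 = a3 at *
  generalize g.1.1 0 1 = b0 at *
  generalize g.1.1 1 1 = b1 at *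
  generalize g.1.1 2 1 = b2 at *
  generalize g.1.1 3 1 = b3 at *
  refine ⟨a0 * b3 + a3 * b0, ?_, ?_, ?_⟩
  · linear_combination (a0 * b3 + a3 * b0) * c +
      (-(a0 * b1 - b0 * a1) * (a2 * b3 - b2 * a3) + a2 * b1 * (a0 * b3 - a3 * b0) +
        a3 * b0 * (a1 * b2 - a2 * b1) + 2 * a3 * b0 * a2 * b1) * h2
  · linear_combination a0 * c + (a1 * a2 * b0) * h2
  · linear_combination a3 * c + (a1 * a3 * b2 + a2 * a3 * b1 - a1 * a2 * b3) * h2

/-- if the first entry is zero -/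
private theorem zzc_zero (g : Sz φ) (h : g.1.1 0 0 = 0) : g.1.1 1 0 = 0 ∧ g.1.1 2 0 = 0 := by
  obtain ⟨s, h1, h2, h3⟩ := zzc_rel g
  rw [h, map_zero, zero_mul, mul_zero, add_zero] at h2
  have h4 : g.1.1 1 0 = 0 := by
    rcases mul_eq_zero.1 h2.symm with h4 | h4
    · exact h4
    · exact (map_eq_zero φ).1 h4
  rw [h, h4, map_zero, zero_mul, zero_mul, add_zero] at h1
  have h5 : s = 0 := mul_self_eq_zero.1 h1
  rw [h5, h4, mul_zero, zero_mul, zero_add] at h3
  refine ⟨h4, ?_⟩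
  rcases mul_eq_zero.1 h3.symm with h6 | h6
  · exact h6
  · exact (map_eq_zero φ).1 h6

/-- the last entry is determined by the others -/
private theorem zzc_inj (g g' : Sz φ) (h0 : g.1.1 0 0 ≠ 0) (e0 : g.1.1 0 0 = g'.1.1 0 0)
    (e1 : g.1.1 1 0 = g'.1.1 1 0) (e2 : g.1.1 2 0 = g'.1.1 2 0) :
    g.1.1 3 0 = g'.1.1 3 0 := by
  obtain ⟨s, h1, h2, -⟩ := zzc_rel g
  obtain ⟨s', h1', h2', -⟩ := zzc_rel g'
  rw [← e0, ← e1, ← e2] at h1' h2'
  have h3 : s = s' := mul_left_cancel₀ h0 (h2.trans h2'.symm)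
  rw [h3, h1'] at h1
  have h4 := add_right_cancel h1
  have h5 : φ (g.1.1 0 0) ≠ 0 := (map_ne_zero φ).2 h0
  exact (φ.injective (mul_left_cancel₀ h5 h4)).symm

/-- the product of the inverse of an element with an element with the same first column -/
private theorem zzc_col (g g' : Sz φ) (e : ∀ i, g.1.1 i 0 = g'.1.1 i 0) (i : Fin 4) :
    (g⁻¹ * g').1.1 i 0 = (1 : Matrix (Fin 4) (Fin 4) F) i 0 := by
  have h1 : (g⁻¹ * g').1.1 i 0 = (g⁻¹ * g).1.1 i 0 := by
    change ((g⁻¹).1.1 * g'.1.1) i 0 = ((g⁻¹).1.1 * g.1.1) i 0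
    rw [Matrix.mul_apply, Matrix.mul_apply]
    exact Finset.sum_congr rfl fun j _ => by rw [e]
  rw [h1, inv_mul_cancel]
  rfl

/-- the first column is not zero -/
private theorem zzc_ne (g : Sz φ) (h : ∀ i, g.1.1 i 0 = 0) : False := by
  have h1 := zzc_col g g (fun _ => rfl) 0
  have h2 : (g⁻¹ * g).1.1 0 0 = 0 := by
    change ((g⁻¹).1.1 * g.1.1) 0 0 = 0
    rw [Matrix.mul_apply]
    exact Finset.sum_eq_zero fun j _ => by rw [h, mul_zero]
  rw [h2] at h1
  exact zero_ne_one h1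

end

theorem zzc_thm (h1 : S_ZZB) : S_ZZC := by
  intro n q f F _ _ φ hn hf hq hF hφ
  classical
  have hq0 : 0 < q := by rw [hq]; positivity
  have : Finite F := Nat.finite_of_card_ne_zero (by omega)
  have : Fintype F := Fintype.ofFinite F
  have : Finite (Sz φ) := by
    have : Finite (Matrix.SpecialLinearGroup (Fin 4) F) := Subtype.finite
    exact Subtype.finite
  have : Fintype (Sz φ) := Fintype.ofFinite _
  have hFq : Fintype.card F = q := by rw [← Nat.card_eq_fintype_card, hF]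
  have hb := (h1 n q f F φ hn hf hq hF hφ).2.2.1
  let c : Sz φ → F × F × F × F := fun g => (g.1.1 0 0, g.1.1 1 0, g.1.1 2 0, g.1.1 3 0)
  have hc : ∀ g g' : Sz φ, c g = c g' → ∀ i, g.1.1 i 0 = g'.1.1 i 0 := by
    intro g g' h i
    simp only [c, Prod.mk.injEq] at h
    obtain ⟨h0, h1, h2, h3⟩ := h
    fin_cases i
    · exact h0
    · exact h1
    · exact h2
    · exact h3
  -- the fibres
  have hfib : ∀ a ∈ (univ : Finset (Sz φ)).image c,
      ((univ : Finset (Sz φ)).filter fun g => c g = a).card ≤ q ^ 2 := by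
    intro a ha
    obtain ⟨g₀, -, rfl⟩ := Finset.mem_image.1 ha
    rw [← hb, Nat.card_eq_fintype_card, Fintype.card_subtype]
    refine Finset.card_le_card_of_injOn (fun g => g₀⁻¹ * g) (fun g hg => ?_) ?_
    · have hg' : c g = c g₀ := (Finset.mem_filter.1 hg).2
      have h4 := zzc_col g₀ g (hc g₀ g hg'.symm)
      refine Finset.mem_filter.2 ⟨Finset.mem_univ _, ?_, ?_, ?_, ?_⟩
      · rw [h4 1]
        simp
      · rw [h4 2]
        simp
      · rw [h4 3]
        simp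
      · rw [h4 0]
        simp
    · intro g _ g' _ h
      exact mul_left_cancel h
  have h2 := Finset.card_le_mul_card_image (univ : Finset (Sz φ)) (q ^ 2) hfib
  rw [Nat.card_eq_fintype_card, ← Finset.card_univ]
  refine h2.trans (Nat.mul_le_mul_left _ ?_)
  -- the columns
  rw [← Finset.card_filter_add_card_filter_not (s := (univ : Finset (Sz φ)).image c)
    (fun a => a.1 = 0)]
  have h3 : (((univ : Finset (Sz φ)).image c).filter fun a => a.1 = 0).card ≤ q - 1 := by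
    have h4 : (((univ : Finset F).erase 0)).card = q - 1 := by
      rw [Finset.card_erase_of_mem (Finset.mem_univ _), Finset.card_univ, hFq]
    rw [← h4]
    refine Finset.card_le_card_of_injOn (fun a => a.2.2.2) (fun a ha => ?_) ?_
    · obtain ⟨ha1, ha2⟩ := Finset.mem_filter.1 ha
      obtain ⟨g, -, rfl⟩ := Finset.mem_image.1 ha1
      refine Finset.mem_erase.2 ⟨fun h => ?_, Finset.mem_univ _⟩
      have h5 := zzc_zero g ha2
      refine zzc_ne g fun i => ?_
      fin_cases i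
      · exact ha2
      · exact h5.1
      · exact h5.2
      · exact h
    · intro a ha a' ha' h
      obtain ⟨ha1, ha2⟩ := Finset.mem_filter.1 ha
      obtain ⟨ha1', ha2'⟩ := Finset.mem_filter.1 ha'
      obtain ⟨g, -, rfl⟩ := Finset.mem_image.1 ha1
      obtain ⟨g', -, rfl⟩ := Finset.mem_image.1 ha1'
      have h5 := zzc_zero g ha2
      have h6 := zzc_zero g' ha2'
      exact Prod.ext (ha2.trans ha2'.symm) (Prod.ext (h5.1.trans h6.1.symm)
        (Prod.ext (h5.2.trans h6.2.symm) h))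
  have h7 : (((univ : Finset (Sz φ)).image c).filter fun a => ¬ a.1 = 0).card ≤
      (q - 1) * q ^ 2 := by
    have h4 : (((univ : Finset F).erase 0) ×ˢ ((univ : Finset F) ×ˢ (univ : Finset F))).card =
        (q - 1) * q ^ 2 := by
      rw [Finset.card_product, Finset.card_product, Finset.card_erase_of_mem (Finset.mem_univ _),
        Finset.card_univ, hFq, pow_two]
    rw [← h4]
    refine Finset.card_le_card_of_injOn (fun a => (a.1, a.2.1, a.2.2.1)) (fun a ha => ?_) ?_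
    · obtain ⟨-, ha2⟩ := Finset.mem_filter.1 ha
      exact Finset.mem_product.2 ⟨Finset.mem_erase.2 ⟨ha2, Finset.mem_univ _⟩,
        Finset.mem_product.2 ⟨Finset.mem_univ _, Finset.mem_univ _⟩⟩
    · intro a ha a' ha' h
      obtain ⟨ha1, ha2⟩ := Finset.mem_filter.1 ha
      obtain ⟨ha1', -⟩ := Finset.mem_filter.1 ha'
      obtain ⟨g, -, rfl⟩ := Finset.mem_image.1 ha1
      obtain ⟨g', -, rfl⟩ := Finset.mem_image.1 ha1'
      simp only [c, Prod.mk.injEq] at h ha2 ⊢
      exact ⟨h.1, h.2.1, h.2.2, zzc_inj g g' ha2 h.1 h.2.1 h.2.2⟩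
  calc _ ≤ (q - 1) + (q - 1) * q ^ 2 := Nat.add_le_add h3 h7
    _ = (q - 1) * (q ^ 2 + 1) := by ring

end Pool.CND
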